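import Pool.Agent.H30EV.Pts

/-!
# Trivial 2-primary Tate-Shafarevich groups for ALL the quadratic twists in an explicit infinite class,
# for a positive proportion of all elliptic curves over `ℚ`

The definitions (`IsMinimal`, `Curves`, `TwistFor`, `ShaCocycle`, `Trivial`, ...) are in
`Pool/Agent/H30EV/Defs.lean`.

A squarefree integer `d`, positive or negative, is admissible for `E : y² = x³ + A x + B` if the cubic
`x³ + A x + B` has no zero modulo the odd primes dividing `d`, and: `A`, `B` are `3` modulo `4` and `d` is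
not `3` modulo `4`, or `A = 12` modulo `16`, `B = 24` modulo `32` and `d` is odd.

Theorem: a positive proportion of all elliptic curves `E / ℚ`, ordered by height, has `E^(d)(ℚ) = 0`,
`Sel_2(E^(d)/ℚ) = 0` and `Ш(E^(d)/ℚ)[2^∞] = 0` for ALL the admissible `d` at the same time. For every finite
set `T` of odd primes a positive proportion has this property and moreover all the odd squarefree
integers composed of primes in `T` are admissible; the same holds for the squarefree integers composed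
of `2` and primes in `T` which are not `3` modulo `4`.

The proof: see `Pool/Agent/H30EV`. For the curves of a family of positive density (from the
projects PQ and PV of the library) the relaxed 2-Selmer group over `ℚ` of a twist by a product of
primes is zero. A class in the Selmer group of the twist by `d` gives an invariant class over the
cubic field; at the primes dividing `d` there is only one prime of the cubic field, and nothing
is needed there; at `2` the local images are computed for all the twists by `d = 1, 2` modulo `4`.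
-/

set_option autoImplicit false
set_option linter.all false

open Filter NumberField
open Pool.Agent.H30EV

namespace Pool.Agent.Results.MP_e23604_nt.AllTwistsPositiveProportion

/-- The integer `d` is squarefree, and its odd prime factors are in `T`. -/
def SupportedOn (T : Finset ℕ) (d : ℤ) : Prop :=
  Squarefree d ∧ ∀ p : ℕ, p.Prime → p ≠ 2 → (p : ℤ) ∣ d → p ∈ T

/-- For ALL the integers `d` which are admissible for the elliptic curve `q = (A, B)` the twist
`E^(d)` has no points over `ℚ` but the point at infinity, `Sel_2(E^(d)/ℚ) = 0` and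
`Ш(E^(d)/ℚ)[2^∞] = 0`. -/
def AllTwistsTrivial (q : ℤ × ℤ) : Prop := ∀ d : ℤ, TwistFor q d → Trivial ℚ (twist q d)

theorem unr_rat : ¬ Ramified ℚ 2 := by
  rintro ⟨𝔭, hpr, hmem⟩
  -- transport to the integers
  let e : 𝓞 ℚ ≃+* ℤ := Rat.ringOfIntegersEquiv
  have h1 : ((2 : ℕ) : 𝓞 ℚ) ∈ 𝔭 := Ideal.pow_le_self two_ne_zero hmem
  have h2 : (2 : ℤ) ∈ 𝔭.map (e : 𝓞 ℚ →+* ℤ) := by
    have := Ideal.mem_map_of_mem (e : 𝓞 ℚ →+* ℤ) h1
    rwa [map_natCast, Nat.cast_ofNat] at this
  have h3 : (2 : ℤ) ∈ (𝔭.map (e : 𝓞 ℚ →+* ℤ)) ^ 2 := by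
    rw [← Ideal.map_pow]
    have := Ideal.mem_map_of_mem (e : 𝓞 ℚ →+* ℤ) hmem
    rwa [map_natCast, Nat.cast_ofNat] at this
  have h4 : (𝔭.map (e : 𝓞 ℚ →+* ℤ)).IsPrime := Ideal.map_isPrime_of_equiv e
  obtain ⟨m, hm⟩ : ∃ m : ℤ, 𝔭.map (e : 𝓞 ℚ →+* ℤ) = Ideal.span {m} :=
    ⟨_, (Ideal.span_singleton_generator _).symm⟩
  rw [hm] at h2 h3 h4
  rw [Ideal.span_singleton_pow, Ideal.mem_span_singleton] at h3
  rw [Ideal.mem_span_singleton] at h2
  have h5 : m.natAbs ∣ 2 := by
    have := Int.natAbs_dvd_natAbs.2 h2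
    simpa using this
  have h6 : m.natAbs ^ 2 ∣ 2 := by
    have := Int.natAbs_dvd_natAbs.2 h3
    simpa [Int.natAbs_pow] using this
  rcases (Nat.dvd_prime Nat.prime_two).1 h5 with h7 | h7
  · apply h4.ne_top
    rw [Ideal.span_singleton_eq_top, Int.isUnit_iff_natAbs_eq]
    exact h7
  · rw [h7] at h6
    norm_num at h6

theorem pos_prop (δ : ℤ) (hδ : Squarefree δ) (T : Finset ℕ) :
    ∃ c : ℝ, 0 < c ∧ ∀ᶠ X : ℕ in atTop, 0 < (Curves X).ncard ∧
      c * ((Curves X).ncard : ℝ) ≤ ({q ∈ Curves X | TwistFor q 1 ∧ TwistFor q δ ∧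
        (∀ p ∈ T, p.Prime → p ≠ 2 → NoZero q p) ∧ AllTwistsTrivial q}.ncard : ℝ) := by
  have halg : (DivisionRing.toRatAlgebra : Algebra ℚ ℚ) = Algebra.id ℚ := Subsingleton.elim _ _
  haveI hgal : @IsGalois ℚ _ ℚ _ DivisionRing.toRatAlgebra := by
    rw [halg]
    exact IsGalois.self ℚ
  have hfr : Module.finrank ℚ ℚ = 2 ^ 0 := by
    rw [pow_zero]
    exact Module.finrank_self ℚ
  obtain ⟨c, hc, h⟩ := main ℚ (n := 0) (by convert hfr) unr_rat δ hδ T
  refine ⟨c, hc, ?_⟩
  filter_upwards [h] with X hX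
  refine ⟨hX.1, hX.2.trans ?_⟩
  have h3 : {q ∈ Curves X | FieldFor ℚ q ∧ TwistFor q 1 ∧ TwistFor q δ ∧
      (∀ p ∈ T, p.Prime → p ≠ 2 → NoZero q p) ∧ Nice q} ⊆ {q ∈ Curves X |
        TwistFor q 1 ∧ TwistFor q δ ∧
        (∀ p ∈ T, p.Prime → p ≠ 2 → NoZero q p) ∧ AllTwistsTrivial q} := by
    rintro q ⟨hq, hf, h1, hd, hz, hnice⟩
    exact ⟨hq, h1, hd, hz, hnice ℚ hf⟩
  have h4 := Set.ncard_le_ncard h3 ((curves_fin X).subset fun q hq => hq.1)
  exact_mod_cast h4

/-- For every finite set `T` of odd primes there is `c > 0` such that for all large `X` at least `c`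
times the number of all elliptic curves `q = (A, B)` over `ℚ` of height at most `X` have both
properties: (1) all the odd squarefree integers `d`, positive or negative, composed of primes in `T`
are admissible for `q`; (2) for ALL the integers `d` which are admissible for `q` the twist `E^(d)` has no
points over `ℚ` but the point at infinity, `Sel_2(E^(d)/ℚ) = 0` and `Ш(E^(d)/ℚ)[2^∞] = 0`. The same holds
with (1) for the squarefree integers, not `3` modulo `4`, whose odd prime factors are in `T`. -/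
theorem result (T : Finset ℕ) :
    (∀ X : ℕ, (Curves X).Finite) ∧
    (∃ c : ℝ, 0 < c ∧ ∀ᶠ X : ℕ in atTop, 0 < (Curves X).ncard ∧
      c * ((Curves X).ncard : ℝ) ≤ ({q ∈ Curves X |
        (∀ d : ℤ, SupportedOn T d → d % 2 = 1 → TwistFor q d) ∧
        AllTwistsTrivial q}.ncard : ℝ)) ∧
    (∃ c : ℝ, 0 < c ∧ ∀ᶠ X : ℕ in atTop, 0 < (Curves X).ncard ∧
      c * ((Curves X).ncard : ℝ) ≤ ({q ∈ Curves X |
        (∀ d : ℤ, SupportedOn T d → d % 4 ≠ 3 → TwistFor q d) ∧
        AllTwistsTrivial q}.ncard : ℝ)) := by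
  have hsq2 : Squarefree (2 : ℤ) := Int.prime_two.squarefree
  have hsq1 : Squarefree (-1 : ℤ) := (squarefree_one (R := ℤ)).squarefree_of_dvd (by norm_num)
  refine ⟨curves_fin, ?_, ?_⟩
  · obtain ⟨c, hc, h⟩ := pos_prop (-1) hsq1 T
    refine ⟨c, hc, ?_⟩
    filter_upwards [h] with X hX
    refine ⟨hX.1, hX.2.trans ?_⟩
    have h3 : {q ∈ Curves X | TwistFor q 1 ∧ TwistFor q (-1) ∧
        (∀ p ∈ T, p.Prime → p ≠ 2 → NoZero q p) ∧ AllTwistsTrivial q} ⊆ {q ∈ Curves X |
          (∀ d : ℤ, SupportedOn T d → d % 2 = 1 → TwistFor q d) ∧ AllTwistsTrivial q} := by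
      rintro q ⟨hq, h1, hd, hz, hnice⟩
      refine ⟨hq, fun d hdT hd2 => ⟨hdT.1, fun p hp hp2 hpd => hz p (hdT.2 p hp hp2 hpd) hp hp2, ?_⟩,
        hnice⟩
      rcases hd.two with ⟨-, -, h4⟩ | ⟨h5, h6, -⟩
      · norm_num at h4
      · exact Or.inr ⟨h5, h6, hd2⟩
    have h4 := Set.ncard_le_ncard h3 ((curves_fin X).subset fun q hq => hq.1)
    exact_mod_cast h4
  · obtain ⟨c, hc, h⟩ := pos_prop 2 hsq2 T
    refine ⟨c, hc, ?_⟩
    filter_upwards [h] with X hX
    refine ⟨hX.1, hX.2.trans ?_⟩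
    have h3 : {q ∈ Curves X | TwistFor q 1 ∧ TwistFor q 2 ∧
        (∀ p ∈ T, p.Prime → p ≠ 2 → NoZero q p) ∧ AllTwistsTrivial q} ⊆ {q ∈ Curves X |
          (∀ d : ℤ, SupportedOn T d → d % 4 ≠ 3 → TwistFor q d) ∧ AllTwistsTrivial q} := by
      rintro q ⟨hq, h1, hd, hz, hnice⟩
      refine ⟨hq, fun d hdT hd2 => ⟨hdT.1, fun p hp hp2 hpd => hz p (hdT.2 p hp hp2 hpd) hp hp2, ?_⟩,
        hnice⟩
      rcases hd.two with ⟨h5, h6, -⟩ | ⟨-, -, h4⟩
      · exact Or.inl ⟨h5, h6, hd2⟩
      · norm_num at h4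
    have h4 := Set.ncard_le_ncard h3 ((curves_fin X).subset fun q hq => hq.1)
    exact_mod_cast h4

end Pool.Agent.Results.MP_e23604_nt.AllTwistsPositiveProportion
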