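import Pool.Agent.Helper29L.Ctrl3
import Pool.Agent.Helper29L.Lin
import Pool.Agent.Helper29L.Size
import Pool.Agent.Helper29L.LOW10
import Pool.Agent.Helper29L.Up
import Pool.Agent.Helper29L.MK
import Pool.Agent.Helper29L.Lev
import Pool.Agent.Helper29L.Tw
import Pool.Agent.Helper29L.Shell1
import Pool.Agent.Helper29L.Shell2
import Pool.Agent.Helper29L.TV

/-!
# Large families in which Ш(E^(t)/ℚ)[2^∞] is finite for ALL admissible twists t of E at once, with the
# proportion of Poonen and Rains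

The elliptic curves over `ℚ` are given by pairs `P = (a, b)`, ordered by `H(a, b) = max (|a| ^ 3) (b ^ 2)`. Let
`C_{2, n} = ∏_{j ≥ 0} (1 + 2^{-j})⁻¹ ∏_{i = 1}^n 2 / (2 ^ i - 1)`; `C_{2, 0} = 0.2097…`.

The curve `E = P` is called controlled if

* `E^(t)(ℚ) = 0`, `Sel_2(E^(t)/ℚ) = 0` and `Ш(E^(t)/ℚ)[2^∞] = 0` for ALL `t` which are admissible for `E` (for
  `a = b = 3` modulo `4` this means: `t` is squarefree, of any sign, not `3` modulo `4`, and the cubic has no zero
  modulo the odd primes `p ∣ t`);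
* `Ш(E^(t)/ℚ)[2]` is finite and `2 ^ rank * #Ш[2] = #Sel_2 ≤ ∏_{p ∣ t} #E(𝔽_p)[2]` for ALL the twists `E^(t)` with `t`
  squarefree, not `3` modulo `4`, and odd primes `p ∣ t` of good reduction.

Theorem. For every `ε > 0` there is a family `𝓕` of elliptic curves (`a > 0`, `(a, b)` modulo `M` in a set
`R`, and `p ^ 2` does not divide `4 a ^ 3 + 27 b ^ 2` for the primes `p` which do not divide `M`), which consists of
minimal pairs with `a = b = 3` modulo `4`, without rational points of order two, and which has positive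
lower density among all elliptic curves over `ℚ`, such that

* a curve `E` in `𝓕` is controlled if and only if `Sel_2(E/ℚ) = 0`;
* for all large `X` the proportion of the controlled curves in `𝓕`, `H ≤ X`, is `C_{2, 0}`, up to `ε`;
* for all large `X` and ALL sets `B` of natural numbers the proportion of the curves in `𝓕` with `H ≤ X`
  for which `Ш(E/ℚ)[2]` is finite with `2 ^ rank * #Ш(E/ℚ)[2] = 2 ^ n`, `n ∈ B`, is `∑_{n ∈ B} C_{2, n}`, up to `ε`.

Moreover `C_{2, 0} > 0.2`: in suitable large families more than one fifth of the curves are controlled.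

Proof. The distribution of the 2-Selmer groups in the families is the theorem in
`Results/MP_8cb858_nt/FamiliesNearPoonenRains.lean`. The members of the families are the twists `E₀^(d)` of
curves `E₀` with squarefree discriminant, and `d` is a product of primes `Q ∣ b` modulo which `x ^ 2 + a` is
irreducible. What is new here is the deterministic theorem: if `Sel_2(E₀^(d)/ℚ) = 0` then `E₀^(d)` is
controlled. The cubic field `L = ℚ[x]/(x ^ 3 + a x + b)` has squarefree discriminant. If `Sel_2(E₀^(d)) = 0` there is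
no nontrivial class in `L^*/L^{*2}` of square norm, even outside `d`, of the right type at `2` and at the
primes `Q ∣ d` (such a class gives a nontrivial element of the Selmer group, `slow`). The theorems of
`H30GR` deduce the assertions on all the twists from this: all the possible classes of all the
admissible twists are of this type.

Written with helper30, helper90, helper28, helper24, helper52, helper61, helper23 (the files of
`Pool/Agent/Helper29L`), on the library of the projects named in their headers.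
-/

set_option autoImplicit false
set_option linter.all false

namespace Pool.Agent.Results.MP_e23604_nt.LargeFamiliesAllTwists

open Filter
open Pool.Agent.H30EV (IsMinimal curve twist Trivial TwistFor SelmerTrivial Pts)
open Pool.Agent.H30GR (GoodTwist twistProd Sel2 Sha)

/-- The height `H(a, b) = max (|a| ^ 3) (|b| ^ 2)`. -/
def height (P : ℤ × ℤ) : ℕ := max (P.1.natAbs ^ 3) (P.2.natAbs ^ 2)

/-- All pairs `(a, b)` of integers with `4 a ^ 3 + 27 b ^ 2 ≠ 0` and `H(a, b) ≤ X`. -/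
def pairs (X : ℕ) : Set (ℤ × ℤ) := {P | 4 * P.1 ^ 3 + 27 * P.2 ^ 2 ≠ 0 ∧ height P ≤ X}

/-- The set `𝓕` has positive lower density among all pairs, ordered by height. -/
def PositiveLowerDensity (𝓕 : Set (ℤ × ℤ)) : Prop :=
  ∃ c : ℝ, 0 < c ∧ ∀ᶠ X : ℕ in atTop, c * ((pairs X).ncard : ℝ) ≤ ((𝓕 ∩ pairs X).ncard : ℝ)

/-- The number `C_{2, n}` of Poonen and Rains. -/
noncomputable def poonenRains (n : ℕ) : ℝ :=
  (∏' j : ℕ, (1 + (1 / 2 : ℝ) ^ j))⁻¹ * ∏ i ∈ Finset.Icc 1 n, (2 : ℝ) / (2 ^ i - 1)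

/-- `Ш(P/ℚ)[2]` is finite and `2 ^ rank * #Ш(P/ℚ)[2] = N`. -/
def RankSha (P : ℤ × ℤ) (N : ℕ) : Prop :=
  Finite {x : Sha (curve ℚ P) // 2 • x = 0} ∧
    2 ^ Module.finrank ℤ (Pts (curve ℚ P) ℚ) * Nat.card {x : Sha (curve ℚ P) // 2 • x = 0} = N

/-- The curve `P = (a, b)` is controlled: the assertions on all its twists. -/
structure Controlled (P : ℤ × ℤ) : Prop where
  /-- all the admissible twists have trivial groups -/
  admissible : ∀ t : ℤ, TwistFor P t → Trivial ℚ (twist P t)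
  /-- all the good twists satisfy the bound -/
  bound : ∀ t : ℤ, GoodTwist P t → Finite (Sel2 (curve ℚ (twist P t))) ∧
    RankSha (twist P t) (Nat.card (Sel2 (curve ℚ (twist P t)))) ∧
    Nat.card (Sel2 (curve ℚ (twist P t))) ≤ twistProd P t

/-- The family given by the set `R` of pairs of classes modulo `M`. -/
def family (M : ℕ) (R : Set (ZMod M × ZMod M)) : Set (ℤ × ℤ) :=
  {P | 0 < P.1 ∧ (((P.1 : ℤ) : ZMod M), ((P.2 : ℤ) : ZMod M)) ∈ R ∧
    ∀ p : ℕ, p.Prime → ¬ p ∣ M → ¬ (p : ℤ) ^ 2 ∣ 4 * P.1 ^ 3 + 27 * P.2 ^ 2}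

/-- The properties of the members: the pair is minimal, `a = b = 3` modulo `4`, there is no rational point
of order two, and the curve is controlled if and only if its 2-Selmer group over `ℚ` is zero. -/
structure Member (P : ℤ × ℤ) : Prop where
  minimal : IsMinimal P.1 P.2
  a_four : P.1 % 4 = 3
  b_four : P.2 % 4 = 3
  root : ∀ x : ℚ, x ^ 3 + (P.1 : ℚ) * x + (P.2 : ℚ) ≠ 0
  iff : Controlled P ↔ SelmerTrivial (curve ℚ P)

/-- The statement on the family `𝓕`: the proportion of the controlled curves, and the distribution of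
`2 ^ rank * #Ш[2]`. -/
def Near (ε : ℝ) (𝓕 : Set (ℤ × ℤ)) : Prop :=
  ∀ᶠ X : ℕ in atTop,
    |({P : ℤ × ℤ | P ∈ 𝓕 ∩ pairs X ∧ Controlled P}.ncard : ℝ) -
      poonenRains 0 * ((𝓕 ∩ pairs X).ncard : ℝ)| ≤ ε * ((𝓕 ∩ pairs X).ncard : ℝ) ∧
    ∀ B : Set ℕ, |({P : ℤ × ℤ | P ∈ 𝓕 ∩ pairs X ∧ ∃ n ∈ B, RankSha P (2 ^ n)}.ncard : ℝ) -
      (∑' n, B.indicator poonenRains n) * ((𝓕 ∩ pairs X).ncard : ℝ)| ≤
        ε * ((𝓕 ∩ pairs X).ncard : ℝ)

/-! ### The deterministic theorem -/

theorem controlled_of {A' B' : ℤ} (h1 : Pool.Agent.H30GR.GSelR A' B')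
    (h2 : Pool.Agent.H30GS.GSelS A' B') : Controlled (A', B') := by
  have hAB : 4 * A' ^ 3 + 27 * B' ^ 2 ≠ 0 := by
    have h3 := h1.pos
    have : 0 < 4 * A' ^ 3 + 27 * B' ^ 2 := by positivity
    exact this.ne'
  have ha4 := h1.a4
  have hb4 := h1.b4
  have hsigns := Pool.Agent.H30GS.signs_of hAB ha4 hb4 h2
  refine ⟨?_, fun δ hδ => ?_⟩
  · intro δ hδ
    obtain ⟨ε, -, h3⟩ := hsigns [] List.nodup_nil (by simp)
    refine h3 0 δ ⟨hδ.squarefree, ?_, ?_, ?_, fun p hp hp2 hpd _ => hδ.noZero p hp hp2 hpd⟩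
    · rcases hδ.two with ⟨-, -, h4⟩ | ⟨h4, -, -⟩
      · exact h4
      · have h5 : A' % 16 = 12 := h4
        omega
    · intro l hl
      simp at hl
    · intro l hl
      simp at hl
  · obtain ⟨h3, h4, h5⟩ := Pool.Agent.H30GR.twist_bound h1 hδ
    haveI := h3
    refine ⟨h3, ⟨Nat.finite_of_card_ne_zero fun h6 => ?_, h5.symm⟩, h4⟩
    rw [h6, mul_zero] at h5
    exact Nat.card_pos.ne' h5

/-- The properties of the members used in the proof. -/
structure PropM (P : ℤ × ℤ) : Prop where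
  mem : Pool.Agent.Helper29L.Mem P
  member : Member P
  iff : Controlled P ↔ Pool.Agent.Helper29L.SelDim P 0

open Pool.Agent.Helper29L in
/-- A twist of a curve of the first family is controlled if and only if its 2-Selmer group is zero. -/
theorem propM {q : ℤ × ℤ} {S Z : Finset ℕ} (hF : Pool.Agent.Helper29K.InFamily q) (hS : Typ q S)
    (hZ : Z ⊆ S) : PropM (twist q ((∏ Q ∈ Z, Q : ℕ) : ℤ)) := by
  obtain ⟨P, hP⟩ : ∃ P : ℤ × ℤ, P = twist q ((∏ Q ∈ Z, Q : ℕ) : ℤ) := ⟨_, rfl⟩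
  have h8 : (∏ Q ∈ Z, Q) % 8 = 1 := prod_mod fun Q hQ => (hS.1 Q (hZ hQ)).2
  have h4 := four_tw hF.a_four hF.b_four h8
  have hm : Mem P := by
    rw [hP]
    exact mem_twist hF (sqf_prod hS.1 hZ)
  have h1 : SelDim P 0 → Controlled P := by
    intro h
    rw [hP] at h ⊢
    obtain ⟨h2, h3⟩ := ctrl hF hS hZ h
    exact controlled_of h2 h3
  have h2 : Controlled P → SelmerTrivial (curve ℚ P) := by
    intro h
    have h3 := (h.admissible 1 ⟨squarefree_one, fun p hp _ hpd => by
      exfalso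
      have : p ∣ 1 := by exact_mod_cast hpd
      exact hp.one_lt.ne' (Nat.dvd_one.1 this), Or.inl ⟨by rw [hP]; exact h4.1,
        by rw [hP]; exact h4.2, by norm_num⟩⟩).selmer
    have e : twist P 1 = P := by
      simp [twist]
    rwa [e] at h3
  rw [← hP]
  exact ⟨hm, ⟨⟨hm.disc, hm.min⟩, by rw [hP]; exact h4.1, by rw [hP]; exact h4.2, hm.root, h2,
    fun h => h1 (selDim_of_trivial h)⟩, fun h => selDim_of_trivial (h2 h), h1⟩

open Pool.Agent.Helper29L in
/-- **Large families, all admissible twists.** -/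
theorem result :
    (∀ ε : ℝ, 0 < ε → ∃ (M : ℕ) (R : Set (ZMod M × ZMod M)), 0 < M ∧
      (∀ P ∈ family M R, Member P) ∧ PositiveLowerDensity (family M R) ∧ Near ε (family M R)) ∧
    1 / 5 < poonenRains 0 := by
  refine ⟨fun ε hε => ?_, const_lt⟩
  obtain ⟨M, R, c, hM, hc, hmem, hev⟩ := fin2 PropM (fun q S Z => propM) tot lowb tw1 tw2
    (fun ε hε => main1 NNL.pbad lin2 size slow sup c2 tv lev win lowb (shell lowb) tw1 hε) hε
  have hset : ∀ X : ℕ, family M R ∩ pairs X = {P : ℤ × ℤ | P ∈ Fam M R ∧ hgt P ≤ X} := by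
    intro X
    ext P
    exact ⟨fun h => ⟨h.1, h.2.2⟩, fun h => ⟨h.1, (hmem P h.1).mem.disc, h.2⟩⟩
  refine ⟨M, R, hM, fun P hP => (hmem P hP).member, ⟨c, hc, ?_⟩, ?_⟩
  · filter_upwards [hev] with X hX
    rw [hset]
    refine le_trans (mul_le_mul_of_nonneg_left ?_ hc.le) hX.1
    exact_mod_cast Set.ncard_le_ncard
      (show pairs X ⊆ {p : ℤ × ℤ | hgt p ≤ X} from fun P hP => hP.2) (fin_hgt X)
  · filter_upwards [hev] with X hX
    rw [hset]
    refine ⟨?_, fun B => ?_⟩
    · have h1 := hX.2 {0}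
      rw [single] at h1
      have e : {P : ℤ × ℤ | P ∈ {P : ℤ × ℤ | P ∈ Fam M R ∧ hgt P ≤ X} ∧ Controlled P} =
          {P : ℤ × ℤ | P ∈ Fam M R ∧ hgt P ≤ X ∧ ∃ n ∈ ({0} : Set ℕ), SelDim P n} := by
        ext P
        constructor
        · rintro ⟨⟨h1, h2⟩, h3⟩
          exact ⟨h1, h2, 0, rfl, ((hmem P h1).iff).1 h3⟩
        · rintro ⟨h1, h2, n, hn, h3⟩
          rw [Set.mem_singleton_iff.1 hn] at h3
          exact ⟨⟨h1, h2⟩, ((hmem P h1).iff).2 h3⟩
      rw [e]
      exact h1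
    · have key : {P : ℤ × ℤ | P ∈ {P : ℤ × ℤ | P ∈ Fam M R ∧ hgt P ≤ X} ∧
          ∃ n ∈ B, RankSha P (2 ^ n)} =
          {P : ℤ × ℤ | P ∈ Fam M R ∧ hgt P ≤ X ∧ ∃ n ∈ B, SelDim P n} := by
        ext P
        constructor
        · rintro ⟨⟨h1, h2⟩, n, hn, h3⟩
          exact ⟨h1, h2, n, hn, (rankSha (hmem P h1).mem n).1 h3⟩
        · rintro ⟨h1, h2, n, hn, h3⟩
          exact ⟨⟨h1, h2⟩, n, hn, (rankSha (hmem P h1).mem n).2 h3⟩
      rw [key]
      exact hX.2 B

end Pool.Agent.Results.MP_e23604_nt.LargeFamiliesAllTwists
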