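import Pool.Agent.H30GS.Main

/-!
# Twists by integers divisible by primes with full 2-torsion, for a positive proportion of all elliptic
# curves over `ℚ`

`E : y ^ 2 = x ^ 3 + A x + B` is an elliptic curve over `ℚ`. A prime `l` is *full* for `E` (`FullTwo`) if it
is odd, `E` has good reduction at `l` and `#E(𝔽_l)[2] = 4`.  If `d` is divisible by full primes, then the
2-Selmer group of the twist `E^(d)` depends on `d` also through the Legendre symbols of `d / l` modulo
`l`, and usually it is not zero.

Theorem: for a positive proportion of all elliptic curves over `ℚ` the following holds. For all finite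
lists `l_1, …, l_k` of different full primes there are signs `ε_1, …, ε_k` such that for all `n ≤ k` and ALL
the squarefree integers `d`, not `3` modulo `4`, with

* `l_1 ⋯ l_n ∣ d`, and the Legendre symbol of `d / l_i` modulo `l_i` is `ε_i` for `i ≤ n`;
* `E(𝔽_p)[2] = 0` for the other odd prime factors `p` of `d`,

the twist `E^(d)` has no points over `ℚ` but the point at infinity, `Sel_2(E^(d)/ℚ) = 0` and
`Ш(E^(d)/ℚ)[2^∞] = 0`.

Proof.  The curves are those for which the classes over `ℚ` with the local condition at `2` and even
valuations elsewhere are trivial (library, project PQ; `H30GR/GoodR`). The classes `α` in the kernel of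
the norm of the cubic field `L` (modulo squares), with the conditions of the signs `ε_1, …, ε_n` at
`l_1, …, l_n` and no condition at `l = l_{n + 1}`, inject by their three valuations at `l`.  The ternary
form `∑ x ^ 2 / (α f'(θ))` is isotropic at all the places but `l`, so it is isotropic at `l`, by the
product formula for the Hilbert symbol (`H30GS/Core`, `recip`). This and the triviality of the classes with
even valuations at `l` imply that classes of different signs at `l` do not exist at the same time
(`H30GS/Loc`, `tt_dich`, and `H30GS/Core`, `step`).  So there is a sign `ε_{n + 1}` for which there are no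
classes.
-/

set_option autoImplicit false

open NumberField Filter

namespace Pool.Agent.Results.MP_e23604_nt.SignsAtFullTorsionPrimes

open Pool.Agent.H30EV (Curves curve twist Trivial)
open Pool.Agent.H30GS

/-- For every list of different full primes there are signs such that for all the initial parts of the
list, all the twists in the class given by these primes and signs have trivial groups: no points over `ℚ`
but the point at infinity, `Sel_2 = 0`, `Ш[2^∞] = 0` (`Trivial`). -/
def Signs (q : ℤ × ℤ) : Prop :=
  ∀ L : List ℕ, L.Nodup → (∀ l ∈ L, FullTwo q l) →
    ∃ ε : ℕ → ℤ, (∀ l ∈ L, ε l = 1 ∨ ε l = -1) ∧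
      ∀ n : ℕ, ∀ d : ℤ, SignTwist q (L.take n).toFinset ε d → Trivial ℚ (twist q d)

theorem result : ∃ c : ℝ, 0 < c ∧ ∀ᶠ X : ℕ in atTop, 0 < (Curves X).ncard ∧
    c * ((Curves X).ncard : ℝ) ≤ ({q ∈ Curves X | Signs q}.ncard : ℝ) :=
  main_signs

end Pool.Agent.Results.MP_e23604_nt.SignsAtFullTorsionPrimes
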